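import Pool.Agent.K1H39.Circles.Construct

set_option autoImplicit false

namespace Pool.Agent.Results.MP_1f1ca1_co.MinCirclesFromFifteen

open Pool.Agent.K1H39.Circles

/-- Every finite planar set determines finitely many circles, and for every `n ≥ 15` the least
number of circles determined by `n` points of the Euclidean plane which are neither collinear nor
concyclic is `C(n-1,2) + 1 - ⌊(n-1)/2⌋`. A circle is an `EuclideanGeometry.Sphere` of the plane
containing at least three points of the set. -/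
theorem result :
    (∀ P : Finset (EuclideanSpace ℝ (Fin 2)),
      {S : EuclideanGeometry.Sphere (EuclideanSpace ℝ (Fin 2)) |
        3 ≤ ((P : Set (EuclideanSpace ℝ (Fin 2))) ∩
          (S : Set (EuclideanSpace ℝ (Fin 2)))).ncard}.Finite) ∧
    ∀ n : ℕ, 15 ≤ n →
      IsLeast {c : ℕ | ∃ P : Finset (EuclideanSpace ℝ (Fin 2)), P.card = n ∧
          ¬ Collinear ℝ (P : Set (EuclideanSpace ℝ (Fin 2))) ∧
          ¬ EuclideanGeometry.Cospherical (P : Set (EuclideanSpace ℝ (Fin 2))) ∧
          {S : EuclideanGeometry.Sphere (EuclideanSpace ℝ (Fin 2)) |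
            3 ≤ ((P : Set (EuclideanSpace ℝ (Fin 2))) ∩
              (S : Set (EuclideanSpace ℝ (Fin 2)))).ncard}.ncard = c}
        ((n - 1).choose 2 + 1 - (n - 1) / 2) := by
  refine ⟨fun P => (numCircles_eq' P).1, fun n hn => ?_⟩
  have h := isLeast_circles n hn
  constructor
  · obtain ⟨P, hP, hA, hc⟩ := h.1
    exact ⟨P, hP, hA.1, hA.2, hc⟩
  · rintro c ⟨P, hP, h1, h2, hc⟩
    exact h.2 ⟨P, hP, ⟨h1, h2⟩, hc⟩

end Pool.Agent.Results.MP_1f1ca1_co.MinCirclesFromFifteen
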